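import Mathlib
import Pool.Agent.TH785.WC.Rest
import Pool.Agent.TH785.WC.Final

/-!
# Consistently, all chains of Weihrauch degrees have size less than `2 ^ 𝔠`

Some notion of forcing `P` forces the combinatorial statement `NoLongChain K X L` (the continuum is
`|K|`, the power set of `K` has at least `|X|` elements but no chain of size `|X|`, and the
cofinality of `|X|` is larger than `|L| > |K|`).  In ZFC this statement implies that every chain in
the Weihrauch degrees has size less than `2 ^ 𝔠`.  So ZFC does not prove that there is a chain of
size `2 ^ 𝔠` in the Weihrauch degrees.

A sentence of the forcing language is the set of the conditions which force it; a name for a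
subset of a ground model set `Y` is a map sending `y` to a set of conditions, and `meets N` says
that the generic filter meets `N`.  `NoLongChainN P K X L` is the literal translation of
`NoLongChain K X L`.

`Degree` is the partial order of the Weihrauch degrees: `Problem` is the type of multi-valued
functions on Baire space (`sol x` is the set of solutions of the instance `x`, the domain consists
of the instances having a solution), preordered by Weihrauch reducibility.
-/

set_option autoImplicit false

namespace Pool.Agent.Results.MP_d0967d_lc.NoLongChain

open Cardinal Pool.Agent.H190R3.Wei Pool.Agent.TH785.WC

theorem result :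
    (∃ (P : Type) (_ : Preorder P) (K X L : Type), Nonempty P ∧
      ∀ p : P, p ∈ NoLongChainN P K X L) ∧
    ∀ K X L : Type, NoLongChain K X L →
      ∀ C : Set Degree, IsChain (· ≤ ·) C → #C < 2 ^ 𝔠 :=
  ⟨exists_forcing, fun _ _ _ h C hC => chain_lt h C hC⟩

end Pool.Agent.Results.MP_d0967d_lc.NoLongChain
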