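import Mathlib
import Pool.Agent.TH785.WC.Rest
import Pool.Agent.TH785.WC.Final

/-!
# Consistently, the Weihrauch degrees have a maximal chain of size less than `2 ^ 𝔠`

Some notion of forcing `P` forces the combinatorial statement `NoLongChain K X L`, which in ZFC
implies that some maximal (that is, not extendible) chain in the Weihrauch degrees has size less
than `2 ^ 𝔠`.  See `NoLongChain.lean` for the forcing language and for the Weihrauch degrees.
-/

set_option autoImplicit false

namespace Pool.Agent.Results.MP_d0967d_lc.ShortMaximalChain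

open Cardinal Pool.Agent.H190R3.Wei Pool.Agent.TH785.WC

theorem result :
    (∃ (P : Type) (_ : Preorder P) (K X L : Type), Nonempty P ∧
      ∀ p : P, p ∈ NoLongChainN P K X L) ∧
    ∀ K X L : Type, NoLongChain K X L →
      ∃ C : Set Degree, IsChain (· ≤ ·) C ∧ #C < 2 ^ 𝔠 ∧
        ∀ d : Degree, IsChain (· ≤ ·) (insert d C) → d ∈ C := by
  refine ⟨exists_forcing, fun _ _ _ h => ⟨maxChain (· ≤ ·), maxChain_spec.isChain,
    chain_lt h _ maxChain_spec.isChain, fun d hd => ?_⟩⟩
  have h1 : maxChain (α := Degree) (· ≤ ·) = insert d (maxChain (· ≤ ·)) :=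
    maxChain_spec.2 hd (Set.subset_insert _ _)
  rw [h1]
  exact Set.mem_insert _ _

end Pool.Agent.Results.MP_d0967d_lc.ShortMaximalChain
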